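import Mathlib
import Pool.Agent.Helper48.W8

/-!
# All curves of weak combinatorial type `W` have the same Alexander polynomial

More precisely, for two polynomials `f`, `f'` defining curves of weak combinatorial type `W` there
is a homeomorphism `Φ` of `ℂ³` with `f' ∘ Φ = f` which commutes with the multiplication by all
twelfth roots of unity; in particular the Milnor fibres with their monodromies are conjugate.
-/

namespace Pool.Agent.Results.MP_0c03d4_ag.SameAlexander

open MvPolynomial Matrix CategoryTheory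

/-- The linear form with coefficient vector `l`. -/
noncomputable def linForm (l : Fin 3 → ℂ) : MvPolynomial (Fin 3) ℂ := ∑ i, C (l i) * X i

/-- The quadratic form with matrix `A`. -/
noncomputable def quadForm (A : Matrix (Fin 3) (Fin 3) ℂ) : MvPolynomial (Fin 3) ℂ :=
  ∑ i, ∑ j, C (A i j) * (X i * X j)

/-- The eight components: `Sum.inl i` is the line `L_{i+1}`, `Sum.inr i` the conic `C_{i+1}`. -/
abbrev Comp := Fin 4 ⊕ Fin 4

/-- The defining form of a component. -/
noncomputable def form (l : Fin 4 → Fin 3 → ℂ) (A : Fin 4 → Matrix (Fin 3) (Fin 3) ℂ) :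
    Comp → MvPolynomial (Fin 3) ℂ
  | Sum.inl i => linForm (l i)
  | Sum.inr i => quadForm (A i)

/-- The gradient of a form at a point: the covector of the tangent line. -/
noncomputable def grad (F : MvPolynomial (Fin 3) ℂ) (p : Fin 3 → ℂ) : Fin 3 → ℂ :=
  fun i => eval p (pderiv i F)

/-- The lines through each of the nine quadruple points. The `j`-th quadruple point lies on the
lines `L_{i+1}`, `i ∈ linesAt j`, and on the conics `C_{i+1}`, `i ∉ linesAt j`. -/
def linesAt : Fin 9 → Finset (Fin 4) :=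
  ![{2, 3}, ∅, ∅, ∅, {0, 1}, {1, 2}, {1, 3}, {0, 2}, {0, 3}]

/-- The components through the thirteen singular points: the nine quadruple points (`Sum.inl j`)
and the four tangency points (`Sum.inr i`, on `L_{i+1}` and `C_{i+1}` only). -/
def Through : Fin 9 ⊕ Fin 4 → Comp → Prop
  | Sum.inl j, Sum.inl i => i ∈ linesAt j
  | Sum.inl j, Sum.inr i => i ∉ linesAt j
  | Sum.inr k, Sum.inl i => i = k
  | Sum.inr k, Sum.inr i => i = k

/-- The lines `l i`, the conics `A i` and the points `P k` realize the weak combinatorial type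
`W`. -/
structure Realizes (l : Fin 4 → Fin 3 → ℂ) (A : Fin 4 → Matrix (Fin 3) (Fin 3) ℂ)
    (P : Fin 9 ⊕ Fin 4 → Fin 3 → ℂ) : Prop where
  /-- the lines are lines -/
  line : ∀ i, l i ≠ 0
  /-- the conics are given by symmetric matrices -/
  symm : ∀ i, (A i).IsSymm
  /-- the conics are smooth -/
  smooth : ∀ i, (A i).det ≠ 0
  /-- the thirteen points are distinct points of the projective plane -/
  distinct : ∀ k k', k ≠ k' → LinearIndependent ℂ ![P k, P k']
  /-- the components through the thirteen points -/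
  incidence : ∀ k a, eval (P k) (form l A a) = 0 ↔ Through k a
  /-- the branches at the nine quadruple points are pairwise transversal -/
  transversal : ∀ (j : Fin 9) (a b : Comp), a ≠ b → Through (Sum.inl j) a →
    Through (Sum.inl j) b → LinearIndependent ℂ
      ![grad (form l A a) (P (Sum.inl j)), grad (form l A b) (P (Sum.inl j))]
  /-- the line `l i` is tangent to the conic `A i` at the point `P (Sum.inr i)` -/
  tangent : ∀ i : Fin 4, ∃ c : ℂ, grad (form l A (Sum.inr i)) (P (Sum.inr i)) =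
    c • grad (form l A (Sum.inl i)) (P (Sum.inr i))
  /-- two components meet only in the thirteen points -/
  no_other : ∀ a b : Comp, a ≠ b → ∀ p : Fin 3 → ℂ, eval p (form l A a) = 0 →
    eval p (form l A b) = 0 → ∃ (k : Fin 9 ⊕ Fin 4) (c : ℂ), p = c • P k

/-- The curve `{f = 0}` has weak combinatorial type `W`. -/
def HasTypeW (f : MvPolynomial (Fin 3) ℂ) : Prop :=
  ∃ l A P, Realizes l A P ∧ f = ∏ a : Comp, form l A a

/-- The Milnor fibre `{f = 1}` of `f`, a subspace of `ℂ³`. -/
abbrev MilnorFibre (f : MvPolynomial (Fin 3) ℂ) : Type := {p : Fin 3 → ℂ // eval p f = 1}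

theorem eval_smul {f : MvPolynomial (Fin 3) ℂ} {d : ℕ} (hf : f.IsHomogeneous d) (c : ℂ)
    (p : Fin 3 → ℂ) : eval (c • p) f = c ^ d * eval p f := by
  rw [eval_eq, eval_eq, Finset.mul_sum]
  refine Finset.sum_congr rfl fun m hm => ?_
  have h1 : ∏ i ∈ m.support, (c • p) i ^ m i = c ^ d * ∏ i ∈ m.support, p i ^ m i := by
    have h2 : m.degree = d := by
      have := hf (mem_support_iff.1 hm)
      rw [← this, Finsupp.degree_eq_weight_one]
      rfl
    simp only [Pi.smul_apply, smul_eq_mul, mul_pow, Finset.prod_mul_distrib]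
    rw [Finset.prod_pow_eq_pow_sum, ← h2]
    rfl
  rw [h1]
  ring

/-- The monodromy `p ↦ exp (2 π i / d) p` of the Milnor fibre of a form of degree `d`. -/
noncomputable def monodromy (d : ℕ) [NeZero d] {f : MvPolynomial (Fin 3) ℂ}
    (hf : f.IsHomogeneous d) : C(MilnorFibre f, MilnorFibre f) where
  toFun p := ⟨Complex.exp (2 * Real.pi * Complex.I / d) • p.1, by
    rw [eval_smul hf, p.2, mul_one]
    exact (Complex.isPrimitiveRoot_exp d (NeZero.ne d)).pow_eq_one⟩
  continuous_toFun := by fun_prop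

/-- The first rational homology of a topological space. -/
noncomputable def H₁ : TopCat.{0} ⥤ ModuleCat.{0} ℚ :=
  (AlgebraicTopology.singularHomologyFunctor (ModuleCat.{0} ℚ) 1).obj (ModuleCat.of ℚ ℚ)

/-- The characteristic polynomial of an endomorphism of a finite-dimensional vector space (`0` for
an infinite-dimensional one). -/
noncomputable def charPoly (V : ModuleCat.{0} ℚ) (φ : V →ₗ[ℚ] V) : Polynomial ℚ := by
  classical
  exact if h : Module.Finite ℚ V then φ.charpoly else 0

/-- The Alexander polynomial of the curve `{f = 0}` of degree `d`: the characteristic polynomial of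
the monodromy on the first rational homology of the Milnor fibre. -/
noncomputable def alexander (d : ℕ) [NeZero d] {f : MvPolynomial (Fin 3) ℂ}
    (hf : f.IsHomogeneous d) : Polynomial ℚ :=
  charPoly (H₁.obj (TopCat.of (MilnorFibre f))) (H₁.map (TopCat.ofHom (monodromy d hf))).hom

theorem eval_linForm (l p : Fin 3 → ℂ) : eval p (linForm l) = l ⬝ᵥ p := by
  simp [linForm, dotProduct]

theorem eval_quadForm (A : Matrix (Fin 3) (Fin 3) ℂ) (p : Fin 3 → ℂ) :
    eval p (quadForm A) = p ⬝ᵥ (A *ᵥ p) := by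
  simp only [quadForm, map_sum, map_mul, eval_C, eval_X, dotProduct, mulVec, Finset.mul_sum]
  refine Finset.sum_congr rfl fun i _ => Finset.sum_congr rfl fun j _ => ?_
  ring

theorem grad_linForm (l p : Fin 3 → ℂ) : grad (linForm l) p = l := by
  funext i
  simp only [grad, linForm, map_sum, Derivation.leibniz, pderiv_C, pderiv_X, smul_eq_mul,
    map_mul, eval_C, mul_zero, add_zero, eval_X]
  fin_cases i <;> simp [Fin.sum_univ_three, Pi.single_apply]

theorem grad_quadForm {A : Matrix (Fin 3) (Fin 3) ℂ} (hA : A.IsSymm) (p : Fin 3 → ℂ) :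
    grad (quadForm A) p = (2 : ℂ) • (A *ᵥ p) := by
  have h01 : A 1 0 = A 0 1 := hA.apply 0 1
  have h02 : A 2 0 = A 0 2 := hA.apply 0 2
  have h12 : A 2 1 = A 1 2 := hA.apply 1 2
  funext i
  simp only [grad, quadForm, map_sum, Derivation.leibniz, pderiv_C, pderiv_X, smul_eq_mul,
    map_mul, eval_C, mul_zero, add_zero, eval_X, Fin.sum_univ_three, Pi.smul_apply, mulVec,
    dotProduct, map_add]
  fin_cases i <;> simp [Pi.single_apply, h01, h02, h12] <;> ring

theorem HasTypeW.isHomogeneous {f : MvPolynomial (Fin 3) ℂ} (hf : HasTypeW f) :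
    f.IsHomogeneous 12 := by
  obtain ⟨l, A, P, -, rfl⟩ := hf
  have h1 : ∀ i, (linForm (l i)).IsHomogeneous 1 := fun i =>
    IsHomogeneous.sum _ _ _ fun j _ => by
      simpa using (isHomogeneous_C (Fin 3) (l i j)).mul (isHomogeneous_X ℂ j)
  have h2 : ∀ i, (quadForm (A i)).IsHomogeneous 2 := fun i =>
    IsHomogeneous.sum _ _ _ fun j _ => IsHomogeneous.sum _ _ _ fun k _ => by
      simpa using (isHomogeneous_C (Fin 3) (A i j k)).mul
        ((isHomogeneous_X ℂ j).mul (isHomogeneous_X ℂ k))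
  have h := IsHomogeneous.prod (Finset.univ : Finset Comp) (form l A)
    (fun a => match a with
      | Sum.inl _ => 1
      | Sum.inr _ => 2) (by
      rintro (i | i) -
      · exact h1 i
      · exact h2 i)
  simpa using h

/-- Every curve of type `W` is a member of the family `FF` in suitable coordinates. -/
theorem HasTypeW.classify {f : MvPolynomial (Fin 3) ℂ} (hf : HasTypeW f) :
    ∃ g ∈ Helper48.W.Gam, ∃ G : (Fin 3 → ℂ) ≃ₗ[ℂ] (Fin 3 → ℂ), ∀ x,
      eval x f = Helper48.W.FF (g, G x) := by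
  obtain ⟨l, A, P, h, rfl⟩ := hf
  have hl : ∀ (k : Fin 9 ⊕ Fin 4) (i : Fin 4), l i ⬝ᵥ P k = 0 ↔ Through k (Sum.inl i) := by
    intro k i
    rw [← h.incidence k (Sum.inl i), form, eval_linForm]
  have hA : ∀ (k : Fin 9 ⊕ Fin 4) (i : Fin 4), P k ⬝ᵥ (A i *ᵥ P k) = 0 ↔
      Through k (Sum.inr i) := by
    intro k i
    rw [← h.incidence k (Sum.inr i), form, eval_quadForm]
  have hne : ∀ i : Fin 4, P (Sum.inr i) ≠ 0 := by
    intro i
    have := h.distinct (Sum.inr i) (Sum.inl 0) (by simp)
    exact this.ne_zero 0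
  obtain ⟨g, hg, G, hG⟩ := Helper48.W.classify (l := l) (A := A) (P := fun j => P (Sum.inl j))
    (T := fun i => P (Sum.inr i)) (fun j i => hl (Sum.inl j) i) (fun j i => hA (Sum.inl j) i)
    h.symm hne (fun i => (hl (Sum.inr i) i).2 rfl)
    (fun i => by
      obtain ⟨c, hc⟩ := h.tangent i
      rw [form, form, grad_linForm, grad_quadForm (h.symm i)] at hc
      refine ⟨c / 2, ?_⟩
      have := congrArg (fun v => (1 / 2 : ℂ) • v) hc
      simp only [smul_smul] at this
      rw [show (1 / 2 : ℂ) * 2 = 1 by norm_num, one_smul] at this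
      rw [this]
      congr 1
      ring)
    (h.distinct _ _ (by simp))
  refine ⟨g, hg, G, fun x => ?_⟩
  rw [← hG, map_prod, Fintype.prod_sum_type]
  simp only [form, eval_linForm, eval_quadForm]

/-- Two polynomials of type `W` are topologically equivalent. -/
theorem exists_homeo {f f' : MvPolynomial (Fin 3) ℂ} (hf : HasTypeW f) (hf' : HasTypeW f') :
    ∃ Φ : (Fin 3 → ℂ) ≃ₜ (Fin 3 → ℂ), (∀ x, eval (Φ x) f' = eval x f) ∧
      ∀ ζ : ℂ, ζ ^ 12 = 1 → ∀ x, Φ (ζ • x) = ζ • Φ x := by
  obtain ⟨g, hg, G, hG⟩ := hf.classify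
  obtain ⟨g', hg', G', hG'⟩ := hf'.classify
  obtain ⟨Ψ, h1, h2⟩ := Helper48.W.rel_FF hg hg'
  refine ⟨(G.toContinuousLinearEquiv.toHomeomorph.trans Ψ).trans
    G'.toContinuousLinearEquiv.symm.toHomeomorph, fun x => ?_, fun ζ hζ x => ?_⟩
  · rw [hG', hG]
    change Helper48.W.FF (g', G' (G'.symm (Ψ (G x)))) = _
    rw [LinearEquiv.apply_symm_apply, h1]
  · change G'.symm (Ψ (G (ζ • x))) = ζ • G'.symm (Ψ (G x))
    have h3 := h2 (rootsOfUnity.mkOfPowEq ζ hζ) (G x)
    rw [rootsOfUnity.coe_mkOfPowEq] at h3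
    rw [map_smul, h3, map_smul]

theorem charPoly_eq {V V' : ModuleCat.{0} ℚ} {φ : V →ₗ[ℚ] V} {φ' : V' →ₗ[ℚ] V'}
    (e : V ≃ₗ[ℚ] V') (h : ∀ v, e (φ v) = φ' (e v)) : charPoly V φ = charPoly V' φ' := by
  unfold charPoly
  by_cases hV : Module.Finite ℚ V
  · have hV' : Module.Finite ℚ V' := Module.Finite.equiv e
    rw [dif_pos hV, dif_pos hV']
    have : φ' = e.conj φ := by
      ext v
      rw [LinearEquiv.conj_apply]
      simp only [LinearMap.comp_apply, LinearEquiv.coe_coe]
      rw [h, LinearEquiv.apply_symm_apply]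
    rw [this, LinearEquiv.charpoly_conj]
  · have hV' : ¬ Module.Finite ℚ V' := fun h' => hV (Module.Finite.equiv e.symm)
    rw [dif_neg hV, dif_neg hV']

/-- **Main theorem.** -/
theorem result (f f' : MvPolynomial (Fin 3) ℂ) (hf : HasTypeW f) (hf' : HasTypeW f') :
    ∃ (h : f.IsHomogeneous 12) (h' : f'.IsHomogeneous 12),
      alexander 12 h = alexander 12 h' ∧
      ∃ Φ : (Fin 3 → ℂ) ≃ₜ (Fin 3 → ℂ), (∀ x, eval (Φ x) f' = eval x f) ∧
        ∀ ζ : ℂ, ζ ^ 12 = 1 → ∀ x, Φ (ζ • x) = ζ • Φ x := by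
  obtain ⟨Φ, h1, h2⟩ := exists_homeo hf hf'
  refine ⟨hf.isHomogeneous, hf'.isHomogeneous, ?_, Φ, h1, h2⟩
  -- the homeomorphism of the Milnor fibres
  let Ψ : MilnorFibre f ≃ₜ MilnorFibre f' :=
    Φ.subtype (fun x => by rw [h1])
  have hΨ : ∀ p, Ψ (monodromy 12 hf.isHomogeneous p) = monodromy 12 hf'.isHomogeneous (Ψ p) := by
    intro p
    apply Subtype.ext
    exact h2 _ (Complex.isPrimitiveRoot_exp 12 (by norm_num)).pow_eq_one p.1
  let i : TopCat.of (MilnorFibre f) ≅ TopCat.of (MilnorFibre f') := TopCat.isoOfHomeo Ψ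
  have hi : TopCat.ofHom (monodromy 12 hf.isHomogeneous) ≫ i.hom =
      i.hom ≫ TopCat.ofHom (monodromy 12 hf'.isHomogeneous) := by
    ext p k
    exact congrFun (congrArg Subtype.val (hΨ p)) k
  have hH := congrArg H₁.map hi
  rw [H₁.map_comp, H₁.map_comp] at hH
  unfold alexander
  refine charPoly_eq (H₁.mapIso i).toLinearEquiv fun v => ?_
  have := congrArg (fun φ => φ.hom v) hH
  exact this

end Pool.Agent.Results.MP_0c03d4_ag.SameAlexander
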